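import Pool.Agent.P8H30.OX.Stm

/-!
# Project OX: the package FRP
-/

set_option autoImplicit false

open PowerSeries Module Matrix

namespace Pool.Agent.P8H49.OX

open Pool.Agent.P8H30.OX
open Pool.Agent.Y119.HY (Am Bm cm Hq_zero Hf Hc)
open Pool.Agent.Y119.HZ

theorem frp : S_JEM → S_JZ → Pool.Agent.P8H30.MX.S_ODE → S_FRP := by
  intro hJEM hJZ hODE n Q hQ
  obtain ⟨b1, b2⟩ := hJEM n Q hQ
  obtain ⟨a1, -⟩ := hJZ n hQ.odd
  set E0 := km (Em n Q) with hE0
  set J := km (J0q n) - (X : ℚ⟦X⟧) • E0 with hJ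
  set H := Hp n Q with hH
  set Z := H.transpose * J * H with hZ
  set G : Matrix (Fin n) (Fin n) ℚ⟦X⟧ := (1 - X : ℚ⟦X⟧) • km (Am n) + (X : ℚ⟦X⟧) • km (Bm n Q) with hG
  have hkm : ∀ M : Matrix (Fin n) (Fin n) ℚ, km M.transpose = (km M).transpose := fun M => rfl
  have kmul : ∀ M N : Matrix (Fin n) (Fin n) ℚ, km (M * N) = km M * km N := fun M N => by
    unfold km
    rw [map_mul]
  have kadd : ∀ M N : Matrix (Fin n) (Fin n) ℚ, km (M + N) = km M + km N := fun M N => by
    unfold km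
    rw [map_add]
  have hGJ : G.transpose * J + J * G = (X * (1 - X) : ℚ⟦X⟧) • E0 := by
    have c1 := congrArg km a1
    have c2 := congrArg km b1
    have c3 := congrArg km b2
    rw [kadd, kmul, kmul, hkm] at c1
    have c1' : (km (Am n)).transpose * km (J0q n) + km (J0q n) * km (Am n) = 0 := by
      rw [c1]
      unfold km
      rw [map_zero]
    rw [kadd, kadd, kadd, kmul, kmul, kmul, kmul, hkm, hkm, ← hE0] at c2 c3
    have e0 : G.transpose * J + J * G = (1 - X : ℚ⟦X⟧) • ((km (Am n)).transpose * km (J0q n) + km (J0q n) * km (Am n)) +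
        (X : ℚ⟦X⟧) • ((km (Bm n Q)).transpose * km (J0q n) + km (J0q n) * km (Bm n Q)) -
        ((X * (1 - X) : ℚ⟦X⟧) • ((km (Am n)).transpose * E0 + E0 * km (Am n)) +
        (X * X : ℚ⟦X⟧) • ((km (Bm n Q)).transpose * E0 + E0 * km (Bm n Q))) := by
      rw [hG, hJ, Matrix.transpose_add, Matrix.transpose_smul, Matrix.transpose_smul]
      simp only [add_mul, mul_add, mul_sub, sub_mul, smul_mul_assoc, mul_smul_comm, smul_add, smul_sub, smul_smul]
      simp only [one_mul, mul_one]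
      abel
    rw [e0, c1', c2, c3, smul_zero, zero_add]
    generalize (km (Am n)).transpose * E0 + E0 * km (Am n) = R
    have e1 : (X : ℚ⟦X⟧) • (E0 + R) - ((X * (1 - X) : ℚ⟦X⟧) • R + (X * X : ℚ⟦X⟧) • (E0 + R)) =
        (X * (1 - X) : ℚ⟦X⟧) • E0 := by
      ext1 i j
      simp only [Matrix.sub_apply, Matrix.add_apply, Matrix.smul_apply, smul_eq_mul]
      ring
    exact e1
  have hode := hODE n Q hQ.toG
  rw [← hH, ← hG] at hode
  have hth : (1 - X : ℚ⟦X⟧) • th H = G * H - (1 - X : ℚ⟦X⟧) • (H * km (Am n)) := by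
    rw [← hode, smul_add]
    abel
  have hthJ : th J = -((X : ℚ⟦X⟧) • E0) := by
    rw [hJ]
    ext1 i j
    unfold th
    rw [Matrix.of_apply, Matrix.sub_apply, Matrix.smul_apply, Matrix.neg_apply, Matrix.smul_apply, hE0, km_apply, km_apply,
      map_sub, PowerSeries.derivative_C, zero_sub, smul_eq_mul, (d⁄dX ℚ).leibniz, PowerSeries.derivative_C,
      smul_zero, zero_add, PowerSeries.derivative_X, smul_eq_mul, mul_one, mul_neg]
  have hthZ : th Z = (th H).transpose * J * H + H.transpose * th J * H + H.transpose * J * th H := by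
    rw [hZ, th_mul, th_mul, add_mul, th_transpose]
  have h1 : (1 - X : ℚ⟦X⟧) • (th Z + ((km (Am n)).transpose * Z + Z * km (Am n))) = 0 := by
    have e1 : (1 - X : ℚ⟦X⟧) • ((th H).transpose * J * H) =
        (H.transpose * G.transpose - (1 - X : ℚ⟦X⟧) • ((km (Am n)).transpose * H.transpose)) * J * H := by
      rw [← smul_mul_assoc, ← smul_mul_assoc, ← Matrix.transpose_smul, hth, Matrix.transpose_sub, Matrix.transpose_smul,
        Matrix.transpose_mul, Matrix.transpose_mul]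
    have e2 : (1 - X : ℚ⟦X⟧) • (H.transpose * J * th H) = H.transpose * J * (G * H - (1 - X : ℚ⟦X⟧) • (H * km (Am n))) := by
      rw [← mul_smul_comm, hth]
    have e0 : (1 - X : ℚ⟦X⟧) • (H.transpose * th J * H) = -(H.transpose * ((X * (1 - X) : ℚ⟦X⟧) • E0) * H) := by
      rw [hthJ, mul_neg, neg_mul, smul_neg, mul_smul_comm, smul_mul_assoc, smul_smul, mul_smul_comm, smul_mul_assoc,
        mul_comm (1 - X : ℚ⟦X⟧) X]
    rw [smul_add, hthZ, smul_add, smul_add, e1, e0, e2, smul_add, hZ]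
    have e3 : (H.transpose * G.transpose - (1 - X : ℚ⟦X⟧) • ((km (Am n)).transpose * H.transpose)) * J * H =
        H.transpose * (G.transpose * J) * H - (1 - X : ℚ⟦X⟧) • ((km (Am n)).transpose * (H.transpose * J * H)) := by
      rw [sub_mul, sub_mul, smul_mul_assoc, smul_mul_assoc]
      simp only [Matrix.mul_assoc]
    have e4 : H.transpose * J * (G * H - (1 - X : ℚ⟦X⟧) • (H * km (Am n))) =
        H.transpose * (J * G) * H - (1 - X : ℚ⟦X⟧) • ((H.transpose * J * H) * km (Am n)) := by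
      rw [mul_sub, mul_smul_comm]
      simp only [Matrix.mul_assoc]
    rw [e3, e4]
    have e5 : H.transpose * (G.transpose * J) * H - H.transpose * ((X * (1 - X) : ℚ⟦X⟧) • E0) * H +
        H.transpose * (J * G) * H = 0 := by
      rw [← hGJ, mul_add, add_mul]
      abel
    calc _ = H.transpose * (G.transpose * J) * H - H.transpose * ((X * (1 - X) : ℚ⟦X⟧) • E0) * H +
        H.transpose * (J * G) * H := by abel
      _ = 0 := e5
  have h1X : (1 - X : ℚ⟦X⟧) ≠ 0 := by
    intro h0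
    have := congrArg (coeff 0) h0
    simp at this
  have h2 : th Z + ((km (Am n)).transpose * Z + Z * km (Am n)) = 0 := by
    ext1 i j
    have h3 := congrFun (congrFun h1 i) j
    rw [Matrix.smul_apply, smul_eq_mul, Matrix.zero_apply] at h3
    exact (mul_eq_zero.1 h3).resolve_left h1X
  refine cf_ext fun k => ?_
  have h3 : (k : ℚ) • cf Z k + ((Am n).transpose * cf Z k + cf Z k * Am n) = 0 := by
    have e1 : cf (th Z + ((km (Am n)).transpose * Z + Z * km (Am n))) k =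
        cf (th Z) k + (cf ((km (Am n)).transpose * Z) k + cf (Z * km (Am n)) k) := by
      ext i j
      unfold cf
      simp only [Matrix.map_apply, Matrix.add_apply, map_add]
    rw [h2, cf_th, ← hkm, cf_km_mul, cf_mul_km] at e1
    rw [← e1]
    ext i j
    unfold cf
    simp
  rcases k with _ | k
  · have h4 : ∀ M N : Matrix (Fin n) (Fin n) ℚ⟦X⟧, cf (M * N) 0 = cf M 0 * cf N 0 := by
      intro M N
      ext i j
      unfold cf
      rw [Matrix.map_apply, Matrix.mul_apply, Matrix.mul_apply, map_sum]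
      refine Finset.sum_congr rfl fun l _ => ?_
      rw [Matrix.map_apply, Matrix.map_apply, coeff_zero_eq_constantCoeff_apply, coeff_zero_eq_constantCoeff_apply,
        coeff_zero_eq_constantCoeff_apply, map_mul]
    have h5 : cf H.transpose 0 = (cf H 0).transpose := rfl
    have h6 : cf J 0 = cf (km (J0q n)) 0 := by
      ext i j
      unfold cf
      rw [Matrix.map_apply, Matrix.map_apply, hJ, Matrix.sub_apply, Matrix.smul_apply, smul_eq_mul, map_sub,
        coeff_zero_X_mul, sub_zero]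
    rw [hZ, h4, h4, h5, hH, cf_Hp, Hq_zero, Matrix.transpose_one, one_mul, mul_one, h6]
  · rw [nil_zero (by exact_mod_cast Nat.succ_ne_zero k) h3]
    ext i j
    unfold cf
    rw [Matrix.map_apply, km_apply, coeff_C, if_neg (Nat.succ_ne_zero k), Matrix.zero_apply]

/-! ### evaluation -/

/-- the values at `1 / t` -/
noncomputable def Ve {n : ℕ} (t : ℝ) (Z : Matrix (Fin n) (Fin n) ℚ⟦X⟧) : Matrix (Fin n) (Fin n) ℂ :=
  Matrix.of fun i j => ((Pool.Agent.Y113.ev t (Z i j) : ℝ) : ℂ)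

lemma Cv_mat {n : ℕ} {t : ℝ} (ht : 0 < t) {M N : Matrix (Fin n) (Fin n) ℚ⟦X⟧} (hM : ∀ i j, Pool.Agent.Y113.Cv t (M i j))
    (hN : ∀ i j, Pool.Agent.Y113.Cv t (N i j)) (i j : Fin n) : Pool.Agent.Y113.Cv t ((M * N) i j) := by
  rw [Matrix.mul_apply]
  exact Pool.Agent.Y113.Cv.sum ht _ _ fun l _ => (hM i l).mul ht (hN l j)

lemma Ve_mul {n : ℕ} {t : ℝ} (ht : 0 < t) {M N : Matrix (Fin n) (Fin n) ℚ⟦X⟧} (hM : ∀ i j, Pool.Agent.Y113.Cv t (M i j))
    (hN : ∀ i j, Pool.Agent.Y113.Cv t (N i j)) : Ve t (M * N) = Ve t M * Ve t N := by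
  ext i j
  unfold Ve
  rw [Matrix.of_apply, Matrix.mul_apply, Matrix.mul_apply,
    Pool.Agent.Y113.Cv.ev_sum ht _ _ fun l _ => (hM i l).mul ht (hN l j), Complex.ofReal_sum]
  refine Finset.sum_congr rfl fun l _ => ?_
  rw [Matrix.of_apply, Matrix.of_apply, (hM i l).ev_mul ht (hN l j), Complex.ofReal_mul]

lemma Ve_km {n : ℕ} (t : ℝ) (M : Matrix (Fin n) (Fin n) ℚ) : Ve t (km M) = cm M := by
  ext i j
  unfold Ve
  rw [Matrix.of_apply, km_apply, Pool.Agent.Y113.ev_C, Pool.Agent.Y119.HY.cm_apply]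
  push_cast
  rfl

lemma lin_coe (a b : ℚ) : (C a - X * C b : ℚ⟦X⟧) = ((Polynomial.C a - Polynomial.X * Polynomial.C b : Polynomial ℚ) : ℚ⟦X⟧) := by
  rw [Polynomial.coe_sub, Polynomial.coe_mul, Polynomial.coe_C, Polynomial.coe_C, Polynomial.coe_X]

lemma Ve_lin {n : ℕ} (t : ℝ) (M N : Matrix (Fin n) (Fin n) ℚ) :
    Ve t (km M - (X : ℚ⟦X⟧) • km N) = cm M - ((1 / t : ℝ) : ℂ) • cm N := by
  ext i j
  unfold Ve
  rw [Matrix.of_apply, Matrix.sub_apply, Matrix.smul_apply, km_apply, km_apply, smul_eq_mul, lin_coe,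
    Pool.Agent.Y113.ev_coe, Matrix.sub_apply, Matrix.smul_apply, Pool.Agent.Y119.HY.cm_apply, Pool.Agent.Y119.HY.cm_apply,
    smul_eq_mul]
  simp only [one_div, map_sub, Polynomial.aeval_C, map_mul, Polynomial.aeval_X, eq_ratCast, Complex.ofReal_sub,
    Complex.ofReal_mul, Complex.ofReal_ratCast, Complex.ofReal_inv]

theorem frh : S_FRP → Pool.Agent.P8H30.MX.S_CVH → S_FRH := by
  intro hF hV n Q hQ x hx0 hx1
  set t : ℝ := 1 / x with ht
  have ht1 : 1 < t := by
    rw [ht, lt_div_iff₀ hx0]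
    linarith
  have ht0 : 0 < t := by linarith
  have hc1 : ∀ i j, Pool.Agent.Y113.Cv t (Hp n Q i j) := hV n Q hQ.toG t ht1
  have hc2 : ∀ i j, Pool.Agent.Y113.Cv t ((Hp n Q).transpose i j) := fun i j => hc1 j i
  have hc3 : ∀ i j, Pool.Agent.Y113.Cv t ((km (J0q n) - (X : ℚ⟦X⟧) • km (Em n Q)) i j) := by
    intro i j
    rw [Matrix.sub_apply, Matrix.smul_apply, km_apply, km_apply, smul_eq_mul, lin_coe]
    exact Pool.Agent.Y113.Cv.coe _
  have h1 := congrArg (Ve t) (hF n Q hQ)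
  have e1 : Ve t (Hp n Q) = Hf (Hc n Q) (x : ℂ) := by
    ext i j
    unfold Ve
    rw [Matrix.of_apply, ev_Hp, ht, one_div_one_div]
  have e2 : Ve t (Hp n Q).transpose = (Ve t (Hp n Q)).transpose := rfl
  rw [Ve_mul ht0 (Cv_mat ht0 hc2 hc3) hc1, Ve_mul ht0 hc2 hc3, e2, e1, Ve_lin, Ve_km, ht, one_div_one_div] at h1
  exact h1

end Pool.Agent.P8H49.OX
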