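import Pool.Agent.P8H30.OX.Stm

/-!
# Project OX: the packages JEM and JZ
-/

set_option autoImplicit false

open PowerSeries Module Matrix

namespace Pool.Agent.P8H49.OX

open Pool.Agent.P8H30.OX
open Pool.Agent.Y119.HY (Am cm mul_Am)

/-- the polynomials `e_i` -/
noncomputable def ei (n : ℕ) (Q : Polynomial ℚ) (i : ℕ) : Polynomial ℚ :=
  ∑ k ∈ Finset.Ico (i + 1) (n + 1), Polynomial.C (Q.coeff k) * (-1 - Polynomial.X : Polynomial ℚ) ^ (k - 1 - i)

lemma Em_eq (n : ℕ) (Q : Polynomial ℚ) (i j : Fin n) : Em n Q i j = (ei n Q i).coeff j := by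
  unfold Em ei
  rw [Matrix.of_apply, Polynomial.finset_sum_coeff]
  refine Finset.sum_congr rfl fun k _ => ?_
  rw [Polynomial.coeff_C_mul]

lemma tr_mul (n : ℕ) (M : Matrix (Fin n) (Fin n) ℚ) (i j : Fin n) :
    ((Am n).transpose * M) i j = if h : (i : ℕ) = 0 then 0 else M ⟨i - 1, by omega⟩ j := by
  have h1 : ((Am n).transpose * M) i j = (M.transpose * Am n) j i := by
    rw [← Matrix.transpose_apply (M.transpose * Am n), Matrix.transpose_mul, Matrix.transpose_transpose]
  rw [h1, mul_Am]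
  rfl

/-- the recursion -/
lemma ei_rec (n : ℕ) (Q : Polynomial ℚ) {i : ℕ} (h1 : 1 ≤ i) (h2 : i ≤ n) :
    ei n Q (i - 1) + (1 + Polynomial.X) * ei n Q i = Polynomial.C (Q.coeff i) := by
  unfold ei
  rw [Nat.sub_add_cancel h1, Finset.sum_eq_sum_Ico_succ_bot (by omega), Finset.mul_sum]
  have e1 : i - 1 - (i - 1) = 0 := by omega
  rw [e1, pow_zero, mul_one, add_assoc, ← Finset.sum_add_distrib]
  rw [Finset.sum_eq_zero, add_zero]
  intro k hk
  rw [Finset.mem_Ico] at hk
  have e2 : k - 1 - (i - 1) = (k - 1 - i) + 1 := by omega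
  rw [e2, pow_succ]
  ring

lemma ei_zero {n : ℕ} {Q : Polynomial ℚ} (h : QO n Q) :
    (1 + Polynomial.X) * ei n Q 0 = Polynomial.C (Q.coeff 0) + Q := by
  have h1 : Q.comp (-1 - Polynomial.X) = ∑ k ∈ Finset.range (n + 1), Polynomial.C (Q.coeff k) * (-1 - Polynomial.X) ^ k := by
    rw [Polynomial.comp, Polynomial.eval₂_eq_sum_range, h.deg]
  rw [h.sym, Finset.range_eq_Ico, Finset.sum_eq_sum_Ico_succ_bot (by omega), pow_zero, mul_one] at h1
  have h2 : (1 + Polynomial.X) * ei n Q 0 = -∑ k ∈ Finset.Ico (0 + 1) (n + 1), Polynomial.C (Q.coeff k) * (-1 - Polynomial.X) ^ k := by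
    unfold ei
    rw [Finset.mul_sum, ← Finset.sum_neg_distrib]
    refine Finset.sum_congr rfl fun k hk => ?_
    rw [Finset.mem_Ico] at hk
    obtain ⟨k, rfl⟩ := Nat.exists_eq_succ_of_ne_zero (show k ≠ 0 by omega)
    have e2 : k.succ - 1 - 0 = k := by omega
    rw [e2, Nat.succ_eq_add_one, pow_succ]
    ring
  rw [h2]
  linear_combination h1

lemma qn {n : ℕ} {Q : Polynomial ℚ} (h : QO n Q) : Q.coeff n = 1 := by
  rw [← h.deg]
  exact h.monic.coeff_natDegree

lemma ei_last {n : ℕ} {Q : Polynomial ℚ} (h : QO n Q) : ei n Q (n - 1) = 1 := by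
  have h3 := h.three
  unfold ei
  rw [Nat.sub_add_cancel (by omega), Finset.sum_eq_sum_Ico_succ_bot (by omega), Finset.Ico_self, Finset.sum_empty, add_zero,
    qn h, map_one, one_mul, Nat.sub_self, pow_zero]

lemma ei_coeff {n : ℕ} {Q : Polynomial ℚ} (h : QO n Q) (i : ℕ) (hi : i < n) :
    (ei n Q i).coeff (n - 1) = if i = 0 then 1 else 0 := by
  have h3 := h.three
  have hd : ∀ k : ℕ, ((-1 - Polynomial.X : Polynomial ℚ) ^ k).natDegree ≤ k := by
    intro k
    refine le_trans Polynomial.natDegree_pow_le ?_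
    have : (-1 - Polynomial.X : Polynomial ℚ).natDegree ≤ 1 := by
      compute_degree
    calc k * (-1 - Polynomial.X : Polynomial ℚ).natDegree ≤ k * 1 := Nat.mul_le_mul_left _ this
      _ = k := mul_one k
  have hc : ∀ k : ℕ, ((-1 - Polynomial.X : Polynomial ℚ) ^ k).coeff k = (-1) ^ k := by
    intro k
    have := Polynomial.coeff_pow_of_natDegree_le (p := (-1 - Polynomial.X : Polynomial ℚ)) (m := k) (n := 1) (by compute_degree)
    rw [mul_one] at this
    rw [this]
    congr 1
    simp [Polynomial.coeff_one]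
  unfold ei
  rw [Polynomial.finset_sum_coeff, Finset.sum_eq_single n]
  · rw [Polynomial.coeff_C_mul, qn h, one_mul]
    split_ifs with h0
    · subst h0
      rw [Nat.sub_zero, hc]
      obtain ⟨m, hm⟩ := h.odd
      rw [hm, Nat.add_sub_cancel, pow_mul]
      simp
    · exact Polynomial.coeff_eq_zero_of_natDegree_lt (lt_of_le_of_lt (hd _) (by omega))
  · intro k hk hkn
    rw [Finset.mem_Ico] at hk
    rw [Polynomial.coeff_C_mul, Polynomial.coeff_eq_zero_of_natDegree_lt (lt_of_le_of_lt (hd _) (by omega)), mul_zero]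
  · intro hk
    exact absurd (Finset.mem_Ico.2 ⟨by omega, by omega⟩) hk

/-- the right hand side -/
noncomputable def rhs (n : ℕ) (Q : Polynomial ℚ) : Matrix (Fin n) (Fin n) ℚ := Matrix.of fun i j =>
  Q.coeff i * (if (j : ℕ) = 0 then 1 else 0) + (if (i : ℕ) = 0 then 1 else 0) * Q.coeff j

lemma Em_rhs {n : ℕ} {Q : Polynomial ℚ} (h : QO n Q) : Em n Q + ((Am n).transpose * Em n Q + Em n Q * Am n) = rhs n Q := by
  ext i j
  have hcol : ∀ p : Polynomial ℚ, ((1 + Polynomial.X) * p).coeff (j : ℕ) =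
      p.coeff j + if (j : ℕ) = 0 then 0 else p.coeff ((j : ℕ) - 1) := by
    intro p
    rw [add_mul, one_mul, Polynomial.coeff_add]
    congr 1
    generalize (j : ℕ) = m
    rcases m with _ | m
    · simp
    · rw [Polynomial.coeff_X_mul, if_neg (Nat.succ_ne_zero m)]
      rfl
  have hE : (Em n Q * Am n) i j = if (j : ℕ) = 0 then 0 else (ei n Q i).coeff ((j : ℕ) - 1) := by
    rw [mul_Am]
    split_ifs with h0
    · rfl
    · rw [Em_eq]
  have h1 : (Em n Q + ((Am n).transpose * Em n Q + Em n Q * Am n)) i j =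
      ((1 + Polynomial.X) * ei n Q i).coeff (j : ℕ) + ((Am n).transpose * Em n Q) i j := by
    rw [Matrix.add_apply, Matrix.add_apply, hE, hcol, Em_eq]
    ring
  rw [h1, tr_mul]
  unfold rhs
  rw [Matrix.of_apply]
  by_cases h0 : (i : ℕ) = 0
  · rw [dif_pos h0, if_pos h0, h0, ei_zero h, add_zero, Polynomial.coeff_add, Polynomial.coeff_C, one_mul]
    congr 1
    split_ifs <;> simp
  · rw [dif_neg h0, if_neg h0, zero_mul, add_zero, Em_eq, ← Polynomial.coeff_add, add_comm]
    have h2 := ei_rec n Q (i := (i : ℕ)) (by omega) i.2.le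
    rw [h2, Polynomial.coeff_C]
    split_ifs <;> simp

lemma Bm_rhs {n : ℕ} {Q : Polynomial ℚ} (h : QO n Q) (M : Matrix (Fin n) (Fin n) ℚ)
    (h1 : ∀ i j : Fin n, (i : ℕ) = n - 1 → M i j = if (j : ℕ) = 0 then 1 else 0)
    (h2 : ∀ i j : Fin n, (j : ℕ) = n - 1 → M i j = if (i : ℕ) = 0 then 1 else 0) :
    (Pool.Agent.Y119.HY.Bm n Q).transpose * M + M * Pool.Agent.Y119.HY.Bm n Q = rhs n Q := by
  have h3 := h.three
  ext i j
  rw [Matrix.add_apply, Matrix.mul_apply, Matrix.mul_apply]
  unfold rhs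
  rw [Matrix.of_apply]
  congr 1
  · rw [Finset.sum_eq_single ⟨n - 1, by omega⟩]
    · rw [Matrix.transpose_apply, h1 _ _ rfl]
      unfold Pool.Agent.Y119.HY.Bm
      rw [Matrix.of_apply, if_pos (by show n - 1 + 1 = n; omega)]
    · intro k _ hk
      rw [Matrix.transpose_apply]
      unfold Pool.Agent.Y119.HY.Bm
      rw [Matrix.of_apply, if_neg, zero_mul]
      intro h'
      exact hk (Fin.ext (by show (k : ℕ) = n - 1; omega))
    · intro h'
      exact absurd (Finset.mem_univ _) h'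
  · rw [Finset.sum_eq_single ⟨n - 1, by omega⟩]
    · rw [h2 _ _ rfl]
      unfold Pool.Agent.Y119.HY.Bm
      rw [Matrix.of_apply]
      congr 1
      exact if_pos (by show n - 1 + 1 = n; omega)
    · intro k _ hk
      unfold Pool.Agent.Y119.HY.Bm
      rw [Matrix.of_apply, if_neg, mul_zero]
      intro h'
      exact hk (Fin.ext (by show (k : ℕ) = n - 1; omega))
    · intro h'
      exact absurd (Finset.mem_univ _) h'

theorem jem : S_JEM := by
  intro n Q h
  have h3 := h.three
  rw [Em_rhs h]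
  refine ⟨Bm_rhs h _ (fun i j hi => ?_) fun i j hj => ?_, Bm_rhs h _ (fun i j hi => ?_) fun i j hj => ?_⟩
  · unfold J0q
    rw [Matrix.of_apply, hi]
    by_cases h0 : (j : ℕ) = 0
    · rw [if_pos (by omega), if_pos h0]
      obtain ⟨m, hm⟩ := h.odd
      rw [hm, Nat.add_sub_cancel, pow_mul]
      simp
    · rw [if_neg (by omega), if_neg h0]
  · unfold J0q
    rw [Matrix.of_apply, hj]
    by_cases h0 : (i : ℕ) = 0
    · rw [if_pos (by omega), if_pos h0, h0, pow_zero]
    · rw [if_neg (by omega), if_neg h0]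
  · rw [Em_eq, hi, ei_last h, Polynomial.coeff_one]
  · rw [Em_eq, hj, ei_coeff h _ i.2]

theorem jz : S_JZ := by
  intro n hn
  obtain ⟨m, hm⟩ := hn
  have hs : ∀ i : ℕ, i < n → (-1 : ℚ) ^ (n - 1 - i) = (-1) ^ i := by
    intro i hi
    have h1 : (-1 : ℚ) ^ (n - 1 - i) * (-1) ^ i = 1 := by
      rw [← pow_add, show n - 1 - i + i = 2 * m by omega, pow_mul]
      simp
    have h2 : (-1 : ℚ) ^ i * (-1) ^ i = 1 := by
      rw [← mul_pow]
      simp
    have h3 : (-1 : ℚ) ^ i ≠ 0 := by
      intro h0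
      rw [h0, mul_zero] at h2
      exact zero_ne_one h2
    exact mul_right_cancel₀ h3 (h1.trans h2.symm)
  have a1 : (Am n).transpose * J0q n + J0q n * Am n = 0 := by
    ext i j
    rw [Matrix.add_apply, tr_mul, mul_Am, Matrix.zero_apply]
    unfold J0q
    simp only [Matrix.of_apply]
    by_cases h0 : (i : ℕ) = 0
    · rw [dif_pos h0, zero_add]
      split_ifs with h1 h2
      · rfl
      · omega
      · rfl
    · rw [dif_neg h0]
      by_cases h1 : (j : ℕ) = 0
      · rw [dif_pos h1, add_zero, if_neg (by omega)]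
      · rw [dif_neg h1]
        by_cases h2 : (i : ℕ) + j = n
        · rw [if_pos (by omega), if_pos (by omega)]
          obtain ⟨k, hk⟩ := Nat.exists_eq_succ_of_ne_zero h0
          rw [hk, Nat.succ_eq_add_one, Nat.add_sub_cancel, pow_succ]
          ring
        · rw [if_neg (by omega), if_neg (by omega), add_zero]
  have a2 : (J0q n).transpose = J0q n := by
    ext i j
    rw [Matrix.transpose_apply]
    unfold J0q
    simp only [Matrix.of_apply]
    by_cases h0 : (i : ℕ) + j + 1 = n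
    · rw [if_pos (by omega), if_pos h0, ← hs i i.2]
      congr 1
      omega
    · rw [if_neg (by omega), if_neg h0]
  have a3 : J0q n * J0q n = 1 := by
    ext i j
    have hi := i.2
    rw [Matrix.mul_apply, Finset.sum_eq_single ⟨n - 1 - i, by omega⟩]
    · unfold J0q
      simp only [Matrix.of_apply]
      rw [if_pos (by omega), Matrix.one_apply]
      by_cases h0 : i = j
      · rw [if_pos (by rw [← h0]; omega), if_pos h0, hs i i.2, ← mul_pow]
        simp
      · rw [if_neg, if_neg h0, mul_zero]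
        intro h'
        exact h0 (Fin.ext (by omega))
    · intro k _ hk
      unfold J0q
      simp only [Matrix.of_apply]
      rw [if_neg, zero_mul]
      intro h'
      exact hk (Fin.ext (by show (k : ℕ) = n - 1 - i; omega))
    · intro h'
      exact absurd (Finset.mem_univ _) h'
  have b1 : (cm (Am n)).transpose * J0 n + J0 n * cm (Am n) = 0 := by
    unfold J0
    rw [← Pool.Agent.Y119.HY.cm_transpose, ← Pool.Agent.Y119.HY.cm_mul, ← Pool.Agent.Y119.HY.cm_mul,
      ← Pool.Agent.Y119.HY.cm_add, a1, Pool.Agent.Y119.HY.cm_zero]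
  have b2 : (J0 n).transpose = J0 n := by
    unfold J0
    rw [← Pool.Agent.Y119.HY.cm_transpose, a2]
  have b3 : J0 n * J0 n = 1 := by
    unfold J0
    rw [← Pool.Agent.Y119.HY.cm_mul, a3, Pool.Agent.Y119.HY.cm_one]
  refine ⟨a1, a2, a3, b1, b2, b3, fun h0 => ?_⟩
  have h1 := congrArg Matrix.det b3
  rw [Matrix.det_mul, h0, mul_zero, Matrix.det_one] at h1
  exact zero_ne_one h1

end Pool.Agent.P8H49.OX
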