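import Pool.Agent.P8H30.OX.Stm

/-!
# Project OX: the package MON
-/

set_option autoImplicit false

open Filter Topology Matrix

namespace Pool.Agent.P8H49.OX

open Pool.Agent.P8H30.OX
open Pool.Agent.Y119.HY (Hf Gal Rel PG Vr pt ev ps_an)

/-- evaluation of a polynomial at analytic functions is analytic -/
lemma ev_an {n : ℕ} {U : Set ℂ} {z L : ℂ → ℂ} {X : ℂ → Matrix (Fin n) (Fin n) ℂ} (hz : AnalyticOnNhd ℂ z U)
    (hL : AnalyticOnNhd ℂ L U) (hX : ∀ i j, AnalyticOnNhd ℂ (fun ζ => X ζ i j) U) (P : MvPolynomial (Vr n) ℂ) :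
    AnalyticOnNhd ℂ (fun ζ => ev P (z ζ) (L ζ) (X ζ)) U := by
  unfold ev
  induction P using MvPolynomial.induction_on with
  | C a => simpa using analyticOnNhd_const
  | add p q hp hq =>
    simp only [map_add]
    exact hp.add hq
  | mul_X p i hp =>
    simp only [map_mul, MvPolynomial.eval_X]
    refine hp.mul ?_
    rcases i with _ | _ | x
    · exact hz
    · exact hL
    · exact hX x.1 x.2

lemma Xp_add {n : ℕ} {lam : ℂ} (hl : lam ≠ 0) {N : Matrix (Fin n) (Fin n) ℂ} (hN : N * N = lam • N) (a : ℂ)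
    (he : Complex.exp (lam * (2 * Real.pi * Complex.I)) = -1) :
    Xp lam N (a + 2 * Real.pi * Complex.I) = Xp lam N a * (1 - (2 / lam) • N) := by
  unfold Xp
  rw [mul_sub, mul_one, add_mul, one_mul, smul_mul_assoc, mul_smul_comm, hN, smul_smul, smul_smul, mul_add lam, Complex.exp_add,
    he]
  ext i j
  simp only [Matrix.sub_apply, Matrix.add_apply, Matrix.smul_apply, smul_eq_mul]
  field_simp
  ring

theorem mon : S_MON := by
  intro n N K M Mi Y p hN hK hM hY P hP x hx hx1
  set lam : ℂ := (p : ℂ) + 1 / 2 with hlam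
  have hl : lam ≠ 0 := by
    intro h0
    have h1 : ((2 * p + 1 : ℤ) : ℂ) = 0 := by
      push_cast
      linear_combination 2 * h0
    have h2 : (2 * p + 1 : ℤ) = 0 := by exact_mod_cast h1
    omega
  have he : Complex.exp (lam * (2 * Real.pi * Complex.I)) = -1 := by
    have h1 : lam * (2 * Real.pi * Complex.I) = (p : ℂ) * (2 * Real.pi * Complex.I) + Real.pi * Complex.I := by
      rw [hlam]
      ring
    rw [h1, Complex.exp_add, Complex.exp_int_mul_two_pi_mul_I, Complex.exp_pi_mul_I, one_mul]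
  set U : Set ℂ := {ζ : ℂ | ζ.re < 0} with hU
  have hUc : IsPreconnected U := (convex_halfSpace_re_lt 0).isPreconnected
  have hnorm : ∀ ζ ∈ U, ‖Complex.exp ζ‖ < 1 := by
    intro ζ hζ
    rw [Complex.norm_exp]
    exact Real.exp_lt_one_iff.2 hζ
  have hexp : AnalyticOnNhd ℂ (fun ζ : ℂ => Complex.exp ζ) U := fun ζ _ => analyticAt_cexp
  have hone : AnalyticOnNhd ℂ (fun ζ : ℂ => 1 - Complex.exp ζ) U := analyticOnNhd_const.sub hexp
  have hlog : AnalyticOnNhd ℂ (fun ζ : ℂ => Complex.log (1 - Complex.exp ζ)) U := by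
    intro ζ hζ
    refine AnalyticAt.clog (hone ζ hζ) ?_
    left
    have h1 : (Complex.exp ζ).re ≤ ‖Complex.exp ζ‖ := Complex.re_le_norm _
    have h2 := hnorm ζ hζ
    rw [Complex.sub_re, Complex.one_re]
    linarith
  have hKan : ∀ i j, AnalyticOnNhd ℂ (fun ζ => Hf K (Complex.exp ζ) i j) U := by
    intro i j ζ hζ
    have h1 : AnalyticAt ℂ (fun z => Hf K z i j) (Complex.exp ζ) := ps_an (hK i j) _ (by
      rw [Metric.mem_ball, dist_zero_right]
      exact hnorm ζ hζ)
    exact h1.comp' analyticAt_cexp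
  have hXan : ∀ i j, AnalyticOnNhd ℂ (fun ζ => Xp lam N ζ i j) U := by
    intro i j
    unfold Xp
    simp only [Matrix.add_apply, Matrix.smul_apply, smul_eq_mul]
    refine analyticOnNhd_const.add (AnalyticOnNhd.mul ?_ analyticOnNhd_const)
    refine AnalyticOnNhd.div ?_ analyticOnNhd_const fun _ _ => hl
    refine AnalyticOnNhd.sub ?_ analyticOnNhd_const
    intro ζ _
    exact (analyticAt_const.mul analyticAt_id).cexp
  set F : ℂ → ℂ := fun ζ => ev P (1 - Complex.exp ζ) (Complex.log (1 - Complex.exp ζ)) (Hf K (Complex.exp ζ) * Xp lam N ζ * M)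
    with hF
  have hFan : AnalyticOnNhd ℂ F U := by
    refine ev_an hone hlog (fun i j => ?_) P
    simp only [Matrix.mul_apply]
    exact Finset.analyticOnNhd_fun_sum _ fun l _ =>
      (Finset.analyticOnNhd_fun_sum _ fun k _ => (hKan i k).mul (hXan k l)).mul analyticOnNhd_const
  have hreal : ∀ r : ℝ, r < 0 → F (r : ℂ) = 0 := by
    intro r hr
    have h1 : 0 < 1 - Real.exp r := by
      have := Real.exp_lt_one_iff.2 hr
      linarith
    have h2 : 1 - Real.exp r < 1 := by
      have := Real.exp_pos r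
      linarith
    have h3 := hP (1 - Real.exp r) h1 h2
    rw [hY _ h1 h2] at h3
    have e1 : (1 - ((1 - Real.exp r : ℝ) : ℂ)) = Complex.exp (r : ℂ) := by
      push_cast
      ring
    have e2 : ((1 - Real.exp r : ℝ) : ℂ) = 1 - Complex.exp (r : ℂ) := by
      push_cast
      ring
    have e3 : Complex.log (Complex.exp (r : ℂ)) = r := by
      rw [← Complex.ofReal_exp, ← Complex.ofReal_log (Real.exp_pos r).le, Real.log_exp]
    rw [e1, e2, e3] at h3
    exact h3
  have hzero : Set.EqOn F 0 U := by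
    have h0 : (-1 : ℂ) ∈ U := by
      rw [hU, Set.mem_setOf_eq]
      simp
    refine hFan.eqOn_zero_of_preconnected_of_frequently_eq_zero hUc h0 ?_
    have ht : Tendsto (fun k : ℕ => (((-1 - 1 / ((k : ℝ) + 1) : ℝ)) : ℂ)) atTop (𝓝[≠] (-1 : ℂ)) := by
      refine tendsto_nhdsWithin_iff.2 ⟨?_, Eventually.of_forall fun k => ?_⟩
      · have h1 : Tendsto (fun k : ℕ => (-1 - 1 / ((k : ℝ) + 1) : ℝ)) atTop (𝓝 (-1 - 0)) :=
          tendsto_const_nhds.sub tendsto_one_div_add_atTop_nhds_zero_nat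
        have h2 := (Complex.continuous_ofReal.tendsto _).comp h1
        have h3 : (((-1 - 0 : ℝ)) : ℂ) = -1 := by
          push_cast
          ring
        rw [h3] at h2
        exact h2
      · rw [Set.mem_compl_iff, Set.mem_singleton_iff]
        intro h1
        have h2 : (-1 - 1 / ((k : ℝ) + 1) : ℝ) = -1 := by exact_mod_cast h1
        have h3 : (0 : ℝ) < 1 / ((k : ℝ) + 1) := by positivity
        linarith
    refine ht.frequently (Frequently.of_forall fun k => ?_)
    refine hreal _ ?_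
    have h3 : (0 : ℝ) < 1 / ((k : ℝ) + 1) := by positivity
    linarith
  -- the point
  have hx2 : 0 < 1 - x := by linarith
  set a : ℂ := Complex.log (1 - (x : ℂ)) with ha
  have ha' : a = ((Real.log (1 - x) : ℝ) : ℂ) := by
    rw [ha, Complex.ofReal_log hx2.le]
    push_cast
    rfl
  have hea : Complex.exp (a + 2 * Real.pi * Complex.I) = 1 - (x : ℂ) := by
    rw [Complex.exp_add, Complex.exp_two_pi_mul_I, mul_one, ha', ← Complex.ofReal_exp, Real.exp_log hx2]
    push_cast
    rfl
  have hmem : a + 2 * Real.pi * Complex.I ∈ U := by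
    rw [hU, Set.mem_setOf_eq, ha']
    have h1 : Real.log (1 - x) < 0 := Real.log_neg hx2 (by linarith)
    simpa using h1
  have h4 := hzero hmem
  rw [hF, Pi.zero_apply] at h4
  simp only at h4
  rw [hea, sub_sub_cancel, Xp_add hl hN a he] at h4
  rw [hY x hx hx1]
  have e2 : Hf K (1 - (x : ℂ)) * Xp lam N a * M * (Mi * (1 - (2 / lam) • N) * M) =
      Hf K (1 - (x : ℂ)) * (Xp lam N a * (1 - (2 / lam) • N)) * M := by
    calc _ = Hf K (1 - (x : ℂ)) * Xp lam N a * (M * Mi) * (1 - (2 / lam) • N) * M := by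
          simp only [Matrix.mul_assoc]
      _ = _ := by rw [hM, mul_one]; simp only [Matrix.mul_assoc]
  rw [e2]
  exact h4

end Pool.Agent.P8H49.OX
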