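import Pool.Agent.P8H30.OX.Stm

/-!
# Project OX: the package QOB
-/

set_option autoImplicit false

open Module Matrix

namespace Pool.Agent.P8H49.OX

open Pool.Agent.P8H30.OX

theorem qob : S_QOB := by
  intro m α hm hα
  set F : Polynomial ℚ := Polynomial.X + Polynomial.C (1 / 2) with hF
  set P : Fin m → Polynomial ℚ := fun j => (Polynomial.X + Polynomial.C (α j)) * (Polynomial.X + Polynomial.C (1 - α j)) with hP
  have hQo : Qo α = F * ∏ j, P j := rfl
  have hPm : ∀ j, (P j).Monic := fun j => (Polynomial.monic_X_add_C _).mul (Polynomial.monic_X_add_C _)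
  have hPp : (∏ j, P j).Monic := Polynomial.monic_prod_of_monic _ _ fun j _ => hPm j
  have hFm : F.Monic := Polynomial.monic_X_add_C _
  have hPd : ∀ j, (P j).natDegree = 2 := fun j => by
    rw [hP]
    simp only
    rw [(Polynomial.monic_X_add_C _).natDegree_mul (Polynomial.monic_X_add_C _), Polynomial.natDegree_X_add_C,
      Polynomial.natDegree_X_add_C]
  have hmon : (Qo α).Monic := by
    rw [hQo]
    exact hFm.mul hPp
  have hdeg : (Qo α).natDegree = 2 * m + 1 := by
    rw [hQo, hFm.natDegree_mul hPp, Polynomial.natDegree_prod_of_monic _ _ fun j _ => hPm j, hF, Polynomial.natDegree_X_add_C,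
      Finset.sum_congr rfl fun j _ => hPd j]
    simp
    ring
  refine ⟨⟨by omega, ⟨m, rfl⟩, hmon, hdeg, ?_, ?_, ?_⟩, ?_⟩
  · rw [hQo, Polynomial.mul_comp, Polynomial.prod_comp, hF, Polynomial.add_comp, Polynomial.X_comp, Polynomial.C_comp]
    have h1 : ∀ j, (P j).comp (-1 - Polynomial.X) = P j := by
      intro j
      rw [hP]
      simp only [Polynomial.mul_comp, Polynomial.add_comp, Polynomial.X_comp, Polynomial.C_comp]
      rw [map_sub, map_one]
      ring
    rw [Finset.prod_congr rfl fun j _ => h1 j]
    have h2 : (Polynomial.C (1 / 2 : ℚ)) = 1 - Polynomial.C (1 / 2 : ℚ) := by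
      rw [← map_one (Polynomial.C (R := ℚ)), ← map_sub]
      norm_num
    rw [← neg_mul]
    congr 1
    linear_combination h2
  · have h1 : (Qo α).nextCoeff = ((2 * m + 1 : ℕ) : ℚ) / 2 := by
      rw [hQo, hFm.nextCoeff_mul hPp, Polynomial.Monic.nextCoeff_prod _ _ fun j _ => hPm j, hF, Polynomial.nextCoeff_X_add_C]
      have h2 : ∀ j, (P j).nextCoeff = 1 := by
        intro j
        rw [hP]
        simp only
        rw [(Polynomial.monic_X_add_C _).nextCoeff_mul (Polynomial.monic_X_add_C _), Polynomial.nextCoeff_X_add_C,
          Polynomial.nextCoeff_X_add_C]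
        ring
      rw [Finset.sum_congr rfl fun j _ => h2 j]
      simp
      ring
    rw [← h1, Polynomial.nextCoeff, if_neg (by rw [hdeg]; omega), hdeg]
  · intro l
    rw [hQo, Polynomial.eval_mul, Polynomial.eval_prod, hF]
    refine mul_ne_zero ?_ (Finset.prod_ne_zero_iff.2 fun j _ => ?_)
    · simp only [Polynomial.eval_add, Polynomial.eval_X, Polynomial.eval_C]
      positivity
    · rw [hP]
      simp only [Polynomial.eval_mul, Polynomial.eval_add, Polynomial.eval_X, Polynomial.eval_C]
      refine mul_ne_zero (fun h => hα j (-l) ?_) fun h => hα j (l + 1) ?_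
      · push_cast
        linarith
      · push_cast
        linarith
  · have e : 2 * m + 1 = (m + m) + 1 := by ring
    set γ' : Fin ((m + m) + 1) → ℚ := Fin.cons (1 / 2) (Fin.append α fun j => 1 - α j) with hγ
    refine ⟨fun i => γ' (finCongr e i), ?_, ?_⟩
    · have h0 : ∀ i, ∀ l : ℕ, (l : ℚ) + γ' i ≠ 0 := by
        intro i l
        rw [hγ]
        refine Fin.cases ?_ (fun i => ?_) i
        · rw [Fin.cons_zero]
          positivity
        · rw [Fin.cons_succ]
          refine Fin.addCases (fun j => ?_) (fun j => ?_) i
          · rw [Fin.append_left]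
            intro h
            refine hα j (-l) ?_
            push_cast
            linarith
          · rw [Fin.append_right]
            intro h
            refine hα j (l + 1) ?_
            push_cast
            linarith
      exact fun i l => h0 _ l
    · rw [Equiv.prod_comp (finCongr e) fun i => Polynomial.X + Polynomial.C (γ' i), Fin.prod_univ_succ, hγ]
      simp only [Fin.cons_zero, Fin.cons_succ]
      rw [Fin.prod_univ_add]
      simp only [Fin.append_left, Fin.append_right]
      rw [hQo, hP, Finset.prod_mul_distrib]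

end Pool.Agent.P8H49.OX
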